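import Mathlib
import Pool.Agent.R158.MMStep

/-!
# Maximizers of the Toeplitz mini-max ratio have full order

The circle is `ℝ / ℤ` (`UnitAddCircle`) with its normalised Haar measure, `fourierCoeff` is the
usual Fourier coefficient.
-/

open MeasureTheory AddCircle

namespace Pool.Agent.Results.MP_bc6ece_an.MaximizerOrder

/-- The `L^∞` norm of a function on the circle. -/
noncomputable def supNorm (f : UnitAddCircle → ℂ) : ℝ :=
  (eLpNorm f ⊤ (haarAddCircle : Measure UnitAddCircle)).toReal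

/-- The `(N+1) × (N+1)` Toeplitz matrix `(a_{j-k})_{j,k=0}^N`. -/
def toeplitz (N : ℕ) (a : ℤ → ℂ) : Matrix (Fin (N + 1)) (Fin (N + 1)) ℂ :=
  Matrix.of fun j k => a ((j : ℤ) - (k : ℤ))

/-- The operator norm of a matrix on the Euclidean space `ℂ^{N+1}`. -/
noncomputable def opNorm {N : ℕ} (A : Matrix (Fin (N + 1)) (Fin (N + 1)) ℂ) : ℝ :=
  ‖Matrix.toEuclideanCLM (n := Fin (N + 1)) (𝕜 := ℂ) A‖

/-- `c_A` for `A = (a_{j-k})`: the least `L^∞` norm of a bounded function whose Fourier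
coefficients of index `|n| ≤ N` are the `a_n`. -/
noncomputable def minSup (N : ℕ) (a : ℤ → ℂ) : ℝ :=
  sInf {r | ∃ f : UnitAddCircle → ℂ, MemLp f ⊤ (haarAddCircle : Measure UnitAddCircle) ∧
    (∀ n : ℤ, |n| ≤ (N : ℤ) → fourierCoeff f n = a n) ∧ supNorm f = r}

/-- `c_N`: the largest value of `c_A / ‖A‖` over all nonzero self-adjoint Toeplitz matrices `A`
of size `N + 1`. -/
noncomputable def cN (N : ℕ) : ℝ :=
  sSup {x | ∃ a : ℤ → ℂ, (toeplitz N a).IsHermitian ∧ toeplitz N a ≠ 0 ∧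
    x = minSup N a / opNorm (toeplitz N a)}

/-- `ψ` is (almost everywhere equal to) an alternating step function of height `c > 0` and
order `n`. For `n ≥ 1` the circle is partitioned into the `2 n` arcs `[θ_j, θ_{j+1})`,
`0 ≤ j < 2 n`, where `θ_0 < θ_1 < ⋯ < θ_{2n} = θ_0 + 1`, and `ψ` takes the values `c` and `-c`
alternately on them. For `n = 0` it is a constant of modulus `c`. -/
def IsAlternatingStep (c : ℝ) (n : ℕ) (ψ : UnitAddCircle → ℂ) : Prop :=
  0 < c ∧
  ((n = 0 ∧ ∃ κ : ℂ, ‖κ‖ = c ∧ ∀ᵐ y ∂(haarAddCircle : Measure UnitAddCircle), ψ y = κ) ∨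
   (0 < n ∧ ∃ (θ : ℕ → ℝ) (ε : ℝ), (ε = 1 ∨ ε = -1) ∧ (∀ j < 2 * n, θ j < θ (j + 1)) ∧
      θ (2 * n) = θ 0 + 1 ∧
      ∀ j < 2 * n, ∀ᵐ y ∂(haarAddCircle : Measure UnitAddCircle),
        y ∈ (fun x : ℝ => (x : UnitAddCircle)) '' Set.Ico (θ j) (θ (j + 1)) →
          ψ y = ((ε * (-1) ^ j * c : ℝ) : ℂ)))

/-- `ψ` is a maximizer of order `n`: an alternating step function of order `n ≤ N` with
`‖ψ‖_∞ / ‖A_{ψ,N}‖ = c_N`. -/
def IsMaximizer (N n : ℕ) (ψ : UnitAddCircle → ℂ) : Prop :=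
  n ≤ N ∧ (∃ c : ℝ, IsAlternatingStep c n ψ) ∧
    supNorm ψ / opNorm (toeplitz N (fourierCoeff ψ)) = cN N

open Pool.Agent.R158 Pool.Agent.R158.ToepAtom Pool.Agent.R158.MMBasic
  Pool.Agent.R158.MMCircle Pool.Agent.R158.MMStep

lemma toeplitz_eq (N : ℕ) (a : ℤ → ℂ) : toeplitz N a = toepM N a := rfl

lemma opNorm_eq {N : ℕ} (A : Matrix (Fin (N + 1)) (Fin (N + 1)) ℂ) :
    opNorm A = MMBasic.opNorm A := rfl

lemma minSup_eq (N : ℕ) (a : ℤ → ℂ) : minSup N a = minNorm N a := rfl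

lemma bdd (N : ℕ) : BddAbove {x | ∃ a : ℤ → ℂ, (toeplitz N a).IsHermitian ∧ toeplitz N a ≠ 0 ∧
    x = minSup N a / opNorm (toeplitz N a)} := by
  refine ⟨2 * N + 1, ?_⟩
  rintro _ ⟨a, _, hne, rfl⟩
  rw [opNorm_eq, minSup_eq, toeplitz_eq] at *
  rw [div_le_iff₀ (opNorm_pos hne)]
  exact minNorm_le_opNorm N a

/-- A function with the data of a step function of order `n < N` is beaten. -/
lemma beaten {N n : ℕ} (hn : n + 1 ≤ N) {c : ℝ} (hc : 0 < c) {ψ : UnitAddCircle → ℂ}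
    {r : UnitAddCircle → ℝ} {P : C(UnitAddCircle, ℂ)} (hP : P ∈ Lam n)
    (hPr : ∀ y, P y = (r y : ℂ)) (hnull : {y | r y = 0}.Finite)
    (hψ : ∀ᵐ y ∂μ, ψ y = (stepOf c r y : ℂ)) :
    c / opNorm (toeplitz N (fourierCoeff ψ)) < cN N := by
  obtain ⟨a, hH, hle, hlt⟩ := improve hn hc hP hPr hnull hψ
  have hne : toepM N a ≠ 0 := by
    intro h0
    have h1 : MMBasic.opNorm (toepM N a) = 0 := by
      rw [h0]
      unfold MMBasic.opNorm
      rw [map_zero, norm_zero]
    have h2 := minNorm_le_opNorm N a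
    rw [h1, mul_zero] at h2
    linarith
  have hpos := opNorm_pos hne
  refine lt_of_lt_of_le ?_ (le_csSup (bdd N) ⟨a, hH, hne, rfl⟩)
  rw [opNorm_eq, opNorm_eq, minSup_eq, toeplitz_eq, toeplitz_eq]
  calc c / MMBasic.opNorm (toepM N (fourierCoeff ψ)) ≤ c / MMBasic.opNorm (toepM N a) := by
        gcongr
    _ < minNorm N a / MMBasic.opNorm (toepM N a) := by
        gcongr

/-- **Every maximizer has order exactly `N`.** -/
theorem result (N : ℕ) (_hN : 1 ≤ N) (n : ℕ) (ψ : UnitAddCircle → ℂ) (h : IsMaximizer N n ψ) :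
    n = N := by
  obtain ⟨hnN, ⟨c, hc, hψ⟩, hmax⟩ := h
  by_contra hne
  have hn : n + 1 ≤ N := by omega
  rcases hψ with ⟨rfl, κ, hκ, hψ⟩ | ⟨hn0, θ, ε, hε, hθ, hT, hψ⟩
  · -- order zero
    have h1 := beaten (N := N) (n := 0) hn one_pos (ψ := fun _ => 1) (r := fun _ => 1)
      (P := 1) (MMCircle.one_mem 0) (fun y => by simp) (by simp)
      (Filter.Eventually.of_forall fun y => by simp [stepOf])
    have hcoef : ∀ κ : ℂ, fourierCoeff (fun _ : UnitAddCircle => κ)
        = fun k => if k = 0 then κ else 0 := by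
      intro κ
      have e : (fun _ : UnitAddCircle => κ) = κ • ⇑(fourier 0 : C(UnitAddCircle, ℂ)) := by
        ext y
        simp
      rw [e]
      ext k
      rw [fourierCoeff.const_smul, fourierCoeff_fourier]
      by_cases hk : k = 0
      · simp [hk]
      · simp [hk]
    have htoep : ∀ κ : ℂ, toeplitz N (fourierCoeff (fun _ : UnitAddCircle => κ))
        = κ • (1 : Matrix (Fin (N + 1)) (Fin (N + 1)) ℂ) := by
      intro κ
      rw [hcoef]
      have := toep_add_one N (fun _ => 0) κ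
      simp only [zero_add] at this
      rw [toeplitz_eq, this]
      have h0 : toepM N (fun _ => 0) = 0 := by
        ext j k
        simp [toepM]
      rw [h0, add_zero]
    rw [htoep, opNorm_eq, opNorm_smul_one, norm_one, div_one] at h1
    have h2 : fourierCoeff ψ = fourierCoeff (fun _ : UnitAddCircle => κ) :=
      fourierCoeff_congr_ae hψ
    rw [h2, htoep, opNorm_eq, opNorm_smul_one, hκ] at hmax
    have h3 : supNorm ψ ≤ c := by
      refine MMCircle.supNorm_le hc.le ?_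
      filter_upwards [hψ] with y hy
      rw [hy, hκ]
    have h4 : supNorm ψ / c ≤ 1 := by
      rw [div_le_one hc]
      exact h3
    linarith
  · obtain ⟨P, r, hP, hPr, hfin, hstep⟩ := exists_data hε hθ hT hψ
    have h1 := beaten hn hc hP hPr hfin hstep
    have h3 : supNorm ψ ≤ c := by
      refine MMCircle.supNorm_le hc.le ?_
      filter_upwards [hstep] with y hy
      rw [hy, Complex.norm_real, Real.norm_eq_abs]
      unfold stepOf
      split_ifs
      · rw [abs_of_pos hc]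
      · rw [abs_neg, abs_of_pos hc]
    have h4 : supNorm ψ / opNorm (toeplitz N (fourierCoeff ψ))
        ≤ c / opNorm (toeplitz N (fourierCoeff ψ)) :=
      div_le_div_of_nonneg_right h3 (norm_nonneg _)
    linarith

end Pool.Agent.Results.MP_bc6ece_an.MaximizerOrder
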